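import Pool.Graph.R_seed8.Y519.CF.Even

set_option autoImplicit false

/-! Closure of root vectors: the branch function. -/

namespace Pool.Agent.KS6_40.CR

open Filter Topology
open Pool.Agent.Results.MP_f3b8e9_an.ConvexClosureFails
open Pool.Agent.Y519.CF

/-- the library branch `br` of `log (1 + e^s)` is differentiable off two vertical rays -/
lemma br_diff' {s : ℂ} (h : |s.im| < Real.pi ∨ s.re ≠ 0) : DifferentiableAt ℂ br s := by
  rcases h with h | h
  · exact br_diff (Or.inl h)
  · rcases lt_or_gt_of_ne h with h | h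
    · have h1 : DifferentiableAt ℂ (fun s => Complex.log (1 + Complex.exp s)) s := by
        apply DifferentiableAt.clog (by fun_prop)
        exact Complex.mem_slitPlane_iff.mpr (Or.inl (slit2 h))
      refine h1.congr_of_eventuallyEq ?_
      have hopen : IsOpen {s : ℂ | s.re < 0} := isOpen_lt (by fun_prop) (by fun_prop)
      filter_upwards [hopen.mem_nhds h] with w hw
      unfold br
      rw [if_neg (not_lt.mpr (le_of_lt hw))]
    · exact br_diff (Or.inr h)

/-- a branch of `log ((1 - e^{ix}) / (1 + e^{ix}))` -/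
noncomputable def M0 (x : ℂ) : ℂ := br (Complex.I * (x - Real.pi)) - br (Complex.I * x)

/-- the value of `M0` in the upper half plane -/
noncomputable def Mu (x : ℂ) : ℂ :=
  Complex.log (1 - Complex.exp (Complex.I * x)) - Complex.log (1 + Complex.exp (Complex.I * x))

lemma M0_diff {x : ℂ} (h : x.im ≠ 0 ∨ (0 < x.re ∧ x.re < Real.pi)) : DifferentiableAt ℂ M0 x := by
  unfold M0
  have h1 : DifferentiableAt ℂ br (Complex.I * (x - Real.pi)) := by
    apply br_diff'
    rcases h with h | h
    · right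
      simpa using h
    · left
      simp only [Complex.mul_im, Complex.I_re, Complex.I_im, zero_mul, one_mul, zero_add,
        Complex.sub_re, Complex.ofReal_re]
      rw [abs_lt]
      constructor <;> linarith
  have h2 : DifferentiableAt ℂ br (Complex.I * x) := by
    apply br_diff'
    rcases h with h | h
    · right
      simpa using h
    · left
      simp only [Complex.mul_im, Complex.I_re, Complex.I_im, zero_mul, one_mul, zero_add]
      rw [abs_lt]
      constructor <;> linarith
  exact (DifferentiableAt.comp (f := fun x : ℂ => Complex.I * (x - Real.pi)) x h1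
    (by fun_prop)).sub (DifferentiableAt.comp (f := fun x : ℂ => Complex.I * x) x h2 (by fun_prop))

lemma exp_shift (x : ℂ) : Complex.exp (Complex.I * (x - Real.pi)) = - Complex.exp (Complex.I * x) := by
  rw [mul_sub, Complex.exp_sub, mul_comm Complex.I (Real.pi : ℂ), Complex.exp_pi_mul_I]
  ring

lemma exp_shift' (x : ℂ) : Complex.exp (-(Complex.I * (x - Real.pi))) =
    - Complex.exp (-(Complex.I * x)) := by
  rw [Complex.exp_neg, exp_shift, Complex.exp_neg, inv_neg]

lemma M0_up {x : ℂ} (h : 0 < x.im) : M0 x = Mu x := by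
  unfold M0 Mu br
  rw [if_neg (by simp; linarith), if_neg (by simp; linarith), exp_shift]
  ring_nf

lemma M0_low {x : ℂ} (h : x.im < 0) : M0 x = -(Real.pi * Complex.I) + Mu (-x) := by
  unfold M0 Mu br
  rw [if_pos (by simpa using h), if_pos (by simpa using h), exp_shift']
  rw [show Complex.I * -x = -(Complex.I * x) by ring]
  ring_nf

lemma Mu_add_pi (x : ℂ) : Mu (x + Real.pi) = - Mu x := by
  unfold Mu
  have e : Complex.exp (Complex.I * (x + Real.pi)) = - Complex.exp (Complex.I * x) := by
    rw [mul_add, Complex.exp_add, mul_comm Complex.I (Real.pi : ℂ), Complex.exp_pi_mul_I]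
    ring
  rw [e]
  ring_nf

lemma Mu_add_int (x : ℂ) (k : ℤ) : Mu (x + k * Real.pi) = (-1 : ℂ) ^ k * Mu x := by
  induction k with
  | zero => simp
  | succ k ih =>
    have e : x + ((k : ℤ) + 1 : ℤ) * (Real.pi : ℂ) = (x + (k : ℤ) * Real.pi) + Real.pi := by
      push_cast; ring
    rw [e, Mu_add_pi, ih, zpow_add₀ (by norm_num), zpow_one]
    ring
  | pred k ih =>
    have e : x + (-(k : ℤ) : ℤ) * (Real.pi : ℂ) =
        (x + (-(k : ℤ) - 1 : ℤ) * Real.pi) + Real.pi := by
      push_cast; ring
    rw [e, Mu_add_pi] at ih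
    rw [zpow_sub₀ (by norm_num), zpow_one]
    linear_combination (-1 : ℂ) * ih

lemma neg_one_zpow_sq (k : ℤ) : (-1 : ℂ) ^ k * (-1 : ℂ) ^ k = 1 := by
  rw [← zpow_add₀ (by norm_num), ← two_mul, zpow_mul]
  simp

lemma neg_one_zpow_neg (k : ℤ) : (-1 : ℂ) ^ (-k) = (-1 : ℂ) ^ k := by
  rw [zpow_neg, ← inv_zpow]
  norm_num

/-- a point between two points of a convex set on a horizontal line -/
lemma horiz_mem {U : Set ℂ} (hU : Convex ℝ U) {p q x : ℂ} (hp : p ∈ U) (hq : q ∈ U)
    (h1 : p.im = x.im) (h2 : q.im = x.im) (h3 : p.re ≤ x.re) (h4 : x.re ≤ q.re) : x ∈ U := by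
  rcases eq_or_lt_of_le (h3.trans h4) with h | h
  · have : x = p := by
      apply Complex.ext
      · linarith
      · exact h1.symm
    rw [this]; exact hp
  · have hd : 0 < q.re - p.re := by linarith
    have key : x = ((q.re - x.re) / (q.re - p.re)) • p + ((x.re - p.re) / (q.re - p.re)) • q := by
      apply Complex.ext
      · simp only [Complex.add_re, Complex.real_smul, Complex.mul_re, Complex.ofReal_re,
          Complex.ofReal_im, zero_mul, sub_zero]
        field_simp
        ring
      · simp only [Complex.add_im, Complex.real_smul, Complex.mul_im, Complex.ofReal_re,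
          Complex.ofReal_im, zero_mul, add_zero]
        rw [h1, h2]
        field_simp
        ring
    rw [key]
    apply hU hp hq
    · exact div_nonneg (by linarith) hd.le
    · exact div_nonneg (by linarith) hd.le
    · field_simp; ring

/-- a convex set which avoids `ζ + π ℤ` meets the horizontal line through `ζ` in one gap -/
lemma exists_gap {U : Set ℂ} (hU : Convex ℝ U) (ζ : ℂ) (h : ∀ k : ℤ, ζ + k * Real.pi ∉ U) :
    ∃ k : ℤ, ∀ u ∈ U, u.im = ζ.im → 0 < (u - ζ - k * Real.pi).re ∧
      (u - ζ - k * Real.pi).re < Real.pi := by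
  by_cases hne : ∃ u ∈ U, u.im = ζ.im
  · obtain ⟨u1, hu1, hi1⟩ := hne
    set k : ℤ := ⌊(u1.re - ζ.re) / Real.pi⌋ with hk
    have hpi := Real.pi_pos
    have hk1 : (k : ℝ) * Real.pi ≤ u1.re - ζ.re := by
      rw [← le_div_iff₀ hpi]; exact Int.floor_le _
    have hk2 : u1.re - ζ.re < ((k : ℝ) + 1) * Real.pi := by
      rw [← div_lt_iff₀ hpi]; exact Int.lt_floor_add_one _
    refine ⟨k, fun u hu hi => ?_⟩
    have hre : ∀ j : ℤ, (ζ + j * Real.pi : ℂ).re = ζ.re + j * Real.pi := by
      intro j; simp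
    have him : ∀ j : ℤ, (ζ + j * Real.pi : ℂ).im = ζ.im := by
      intro j; simp
    have e : (u - ζ - k * Real.pi).re = u.re - ζ.re - k * Real.pi := by simp
    rw [e]
    constructor
    · by_contra hc
      push Not at hc
      apply h k
      refine horiz_mem hU hu hu1 (by rw [hi, him]) (by rw [hi1, him]) ?_ ?_
      · rw [hre]; linarith
      · rw [hre]; linarith
    · by_contra hc
      push Not at hc
      apply h (k + 1)
      refine horiz_mem hU hu1 hu (by rw [hi1, him]) (by rw [hi, him]) ?_ ?_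
      · rw [hre]; push_cast; linarith
      · rw [hre]; push_cast; linarith
  · push Not at hne
    exact ⟨0, fun u hu hi => absurd hi (hne u hu)⟩

/-- the auxiliary function: differentiable on `U`, `Λ(-u) = 1 - Λ(u)` in the middle strip and
`Λ(u + π) = - Λ(u)` above it -/
lemma exists_Lam {U : Set ℂ} (hU : Convex ℝ U) (ζ : ℂ) (hζ : 0 < ζ.im)
    (h1 : ∀ k : ℤ, ζ + k * Real.pi ∉ U) (h2 : ∀ k : ℤ, -ζ + k * Real.pi ∉ U) :
    ∃ L : ℂ → ℂ, (∀ u ∈ U, DifferentiableAt ℂ L u) ∧
      (∀ u : ℂ, |u.im| < ζ.im → L (-u) = 1 - L u) ∧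
      (∀ u : ℂ, ζ.im < u.im → L (u + Real.pi) = - L u) := by
  obtain ⟨k0, hk0⟩ := exists_gap hU ζ h1
  obtain ⟨k1, hk1⟩ := exists_gap hU (-ζ) h2
  have hpi : (2 * Real.pi * Complex.I : ℂ) ≠ 0 := by simp [Real.pi_ne_zero]
  set σ : ℂ := (-1) ^ k0 * (-1) ^ k1 with hσ
  set L : ℂ → ℂ := fun u => -(2 * Real.pi * Complex.I)⁻¹ *
    (M0 (u - ζ - k0 * Real.pi) - σ * M0 (u + ζ - k1 * Real.pi)) with hL
  have himS : ∀ (u : ℂ) (k : ℤ), (u - ζ - k * Real.pi : ℂ).im = u.im - ζ.im := by
    intro u k; simp
  have himA : ∀ (u : ℂ) (k : ℤ), (u + ζ - k * Real.pi : ℂ).im = u.im + ζ.im := by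
    intro u k; simp
  have eS : ∀ (x : ℂ) (k : ℤ), Mu (x - k * Real.pi) = (-1 : ℂ) ^ k * Mu x := by
    intro x k
    rw [show x - (k : ℂ) * Real.pi = x + ((-k : ℤ) : ℂ) * Real.pi by push_cast; ring, Mu_add_int,
      neg_one_zpow_neg]
  have hmid : ∀ u : ℂ, |u.im| < ζ.im → L u = -(2 * Real.pi * Complex.I)⁻¹ *
      (-(Real.pi * Complex.I) + (-1) ^ k0 * (Mu (ζ - u) - Mu (ζ + u))) := by
    intro u hu
    rw [abs_lt] at hu
    rw [hL]
    beta_reduce
    rw [M0_low (by rw [himS]; linarith), M0_up (by rw [himA]; linarith), eS,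
      show -(u - ζ - (k0 : ℂ) * Real.pi) = (ζ - u) + (k0 : ℂ) * Real.pi by ring, Mu_add_int, hσ,
      show u + ζ = ζ + u by ring]
    have := neg_one_zpow_sq k1
    linear_combination (2 * Real.pi * Complex.I)⁻¹ * (-1) ^ k0 * Mu (ζ + u) * this
  have hup : ∀ u : ℂ, ζ.im < u.im → L u = -(2 * Real.pi * Complex.I)⁻¹ *
      ((-1) ^ k0 * (Mu (u - ζ) - Mu (u + ζ))) := by
    intro u hu
    rw [hL]
    beta_reduce
    rw [M0_up (by rw [himS]; linarith), M0_up (by rw [himA]; linarith), eS, eS, hσ]
    have := neg_one_zpow_sq k1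
    linear_combination (2 * Real.pi * Complex.I)⁻¹ * (-1) ^ k0 * Mu (u + ζ) * this
  refine ⟨L, ?_, ?_, ?_⟩
  · intro u hu
    have d1 : DifferentiableAt ℂ (fun u : ℂ => M0 (u - ζ - k0 * Real.pi)) u := by
      have : DifferentiableAt ℂ M0 (u - ζ - k0 * Real.pi) := by
        apply M0_diff
        by_cases hi : u.im = ζ.im
        · exact Or.inr (hk0 u hu hi)
        · left
          rw [himS]
          exact sub_ne_zero.mpr hi
      exact DifferentiableAt.comp (f := fun u : ℂ => u - ζ - k0 * Real.pi) u this (by fun_prop)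
    have d2 : DifferentiableAt ℂ (fun u : ℂ => M0 (u + ζ - k1 * Real.pi)) u := by
      have : DifferentiableAt ℂ M0 (u + ζ - k1 * Real.pi) := by
        apply M0_diff
        by_cases hi : u.im = (-ζ).im
        · right
          have := hk1 u hu hi
          rw [sub_neg_eq_add] at this
          exact this
        · left
          rw [himA]
          intro hc
          apply hi
          rw [Complex.neg_im]
          linarith
      exact DifferentiableAt.comp (f := fun u : ℂ => u + ζ - k1 * Real.pi) u this (by fun_prop)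
    rw [hL]
    exact (d1.sub (d2.const_mul σ)).const_mul _
  · intro u hu
    rw [hmid u hu, hmid (-u) (by rw [Complex.neg_im, abs_neg]; exact hu),
      show ζ - -u = ζ + u by ring, show ζ + -u = ζ - u by ring]
    field_simp
    ring
  · intro u hu
    rw [hup u hu, hup (u + Real.pi) (by simpa using hu),
      show u + (Real.pi : ℂ) - ζ = (u - ζ) + Real.pi by ring,
      show u + (Real.pi : ℂ) + ζ = (u + ζ) + Real.pi by ring, Mu_add_pi, Mu_add_pi]
    ring

end Pool.Agent.KS6_40.CR
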