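import Pool.Agent.KS6_40.CR.Fam

set_option autoImplicit false

/-! Closure of root vectors: failure from a configuration of points. -/

namespace Pool.Agent.KS6_40.CR

open Filter Topology
open Pool.Agent.Results.MP_f3b8e9_an.ConvexClosureFails
open Pool.Agent.Y519.CF

/-- the configuration -/
structure Config (Ω : Set ℂ) (a c r z0 z1 : ℂ) : Prop where
  r_ne : r ≠ 0
  ha : a ∈ Ω
  hb : c + r ∈ Ω
  hd : c - r ∈ Ω
  h1 : z1 + r ∈ Ω
  h2 : z1 - r ∈ Ω
  h3 : z1 + 2 * (c - a) + r ∈ Ω
  h4 : z1 + 2 * (c - a) - r ∈ Ω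
  pos : 0 < ((z0 - a) / r).im
  hc : ((z0 - a) / r).im < ((c - a) / r).im
  hz : ((z0 - a) / r).im < ((z1 - a) / r).im
  av1 : ∀ k : ℤ, z0 + 2 * k * r ∉ Ω
  av2 : ∀ k : ℤ, 2 * a - z0 + 2 * k * r ∉ Ω

/-- the normalised variable -/
noncomputable def nv (a r z : ℂ) : ℂ := (Real.pi / 2 : ℝ) * ((z - a) / r)

lemma nv_im (a r z : ℂ) : (nv a r z).im = (Real.pi / 2) * ((z - a) / r).im := by
  unfold nv
  rw [Complex.im_ofReal_mul]

lemma nv_add_r {a r : ℂ} (hr : r ≠ 0) (z : ℂ) : nv a r (z + r) = nv a r z + Real.pi / 2 := by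
  unfold nv; push_cast; field_simp; ring

lemma nv_sub_r {a r : ℂ} (hr : r ≠ 0) (z : ℂ) : nv a r (z - r) = nv a r z - Real.pi / 2 := by
  unfold nv; push_cast; field_simp; ring

section

variable {Ω : Set ℂ} (hΩ : IsOpen Ω)

lemma exists_L (hcv : Convex ℝ Ω) {a c r z0 z1 : ℂ} (hD : Config Ω a c r z0 z1) :
    ∃ L : ℂ → ℂ, (∀ z ∈ Ω, DifferentiableAt ℂ L (nv a r z)) ∧
      (∀ u : ℂ, |u.im| < (nv a r z0).im → L (-u) = 1 - L u) ∧
      (∀ u : ℂ, (nv a r z0).im < u.im → L (u + Real.pi) = - L u) := by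
  have hr := hD.r_ne
  have hpi : (Real.pi : ℂ) ≠ 0 := by exact_mod_cast Real.pi_ne_zero
  set U : Set ℂ := {u | a + (2 / Real.pi) * (r * u) ∈ Ω} with hU
  have hUc : Convex ℝ U := by
    intro x hx y hy s t hs ht hst
    have e : a + (2 / Real.pi) * (r * (s • x + t • y)) =
        s • (a + (2 / Real.pi) * (r * x)) + t • (a + (2 / Real.pi) * (r * y)) := by
      have h1 : (s : ℂ) + t = 1 := by exact_mod_cast hst
      simp only [Complex.real_smul]
      linear_combination (-a) * h1
    change a + (2 / Real.pi) * (r * (s • x + t • y)) ∈ Ω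
    rw [e]
    exact hcv hx hy hs ht hst
  have hback : ∀ z, a + (2 / Real.pi) * (r * nv a r z) = z := by
    intro z; unfold nv; push_cast; field_simp; ring
  obtain ⟨L, hL1, hL2, hL3⟩ := exists_Lam hUc (nv a r z0)
    (by rw [nv_im]; exact mul_pos (by positivity) hD.pos)
    (by
      intro k hk
      apply hD.av1 k
      have e : a + (2 / Real.pi) * (r * (nv a r z0 + k * Real.pi)) = z0 + 2 * k * r := by
        have := hback z0
        linear_combination (norm := skip) this
        field_simp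
        ring
      rw [← e]
      exact hk)
    (by
      intro k hk
      apply hD.av2 k
      have e : a + (2 / Real.pi) * (r * (-nv a r z0 + k * Real.pi)) = 2 * a - z0 + 2 * k * r := by
        have := hback z0
        linear_combination (norm := skip) (-1 : ℂ) * this
        field_simp
        ring
      rw [← e]
      exact hk)
  refine ⟨L, fun z hz => hL1 _ ?_, hL2, hL3⟩
  change a + (2 / Real.pi) * (r * nv a r z) ∈ Ω
  rw [hback]
  exact hz

/-- the functions of `D_∞` in the variable `z` -/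
noncomputable def Fz (L : ℂ → ℂ) (a c r : ℂ) (k : ℕ) (z : ℂ) : ℂ :=
  Fu L (nv a r c) k (nv a r z)

lemma Fz_diff {L : ℂ → ℂ} {a c r : ℂ}
    (hL : ∀ z ∈ Ω, DifferentiableAt ℂ L (nv a r z)) (k : ℕ) :
    DifferentiableOn ℂ (Fz L a c r k) Ω := by
  intro z hz
  apply DifferentiableAt.differentiableWithinAt
  have hn : DifferentiableAt ℂ (nv a r) z := by
    unfold nv
    fun_prop
  have hL' : DifferentiableAt ℂ (fun z => L (nv a r z)) z :=
    DifferentiableAt.comp (f := nv a r) z (hL z hz) hn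
  unfold Fz Fu
  fun_prop

/-- the value of `f (y + r) + f (y - r)` above the singularities -/
lemma Fz_sum {L : ℂ → ℂ} {a c r z0 : ℂ} (hr : r ≠ 0)
    (hL3 : ∀ u : ℂ, (nv a r z0).im < u.im → L (u + Real.pi) = - L u) (k : ℕ) {y : ℂ}
    (hy : (nv a r z0).im < (nv a r y).im) :
    Fz L a c r k (y + r) + Fz L a c r k (y - r) =
      2 * (-1) ^ (k + 1) * Complex.sin (2 * (k + 1 : ℕ) * (nv a r y - nv a r c)) := by
  unfold Fz
  rw [nv_add_r hr, nv_sub_r hr]
  apply Fu_sum
  have h := hL3 (nv a r y - Real.pi / 2) (by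
    have : (nv a r y - Real.pi / 2 : ℂ).im = (nv a r y).im := by
      have : (Real.pi / 2 : ℂ) = ((Real.pi / 2 : ℝ) : ℂ) := by push_cast; ring
      rw [Complex.sub_im, this, Complex.ofReal_im, sub_zero]
    rw [this]; exact hy)
  rw [← h]
  congr 1
  ring

lemma nv_cont (a r : ℂ) : Continuous (nv a r) := by
  unfold nv
  fun_prop

theorem fail (hcv : Convex ℝ Ω) (h0 : (0 : ℂ) ∈ Ω) {a c r z0 z1 : ℂ}
    (hD : Config Ω a c r z0 z1) (m : ℕ) (hm : 1 ≤ m) :
    DeltaNeZero hΩ h0 (2 * m) (fun _ => 0) (phT hΩ hD.ha hD.hb hD.hd m) ∧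
    ∃ g : ℕ → A Ω, (∀ k, g k ∈ DInfty hΩ (2 * m) (fun _ => 0) (phT hΩ hD.ha hD.hb hD.hd m)) ∧
      ∀ (s : Finset ℕ) (w : ℕ → ℂ),
        ∑ k ∈ s, w k • g k ∈ Cl hΩ (2 * m) (fun _ => 0) (phT hΩ hD.ha hD.hb hD.hd m) →
        ∀ k ∈ s, w k = 0 := by
  have hr := hD.r_ne
  have hpi := Real.pi_pos
  have hca : 0 < ((c - a) / r).im := hD.pos.trans hD.hc
  have hcne : c ≠ a := by
    rintro rfl
    simp at hca
  have hlt : ∀ z, ((z0 - a) / r).im < ((z - a) / r).im → (nv a r z0).im < (nv a r z).im := by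
    intro z hz
    rw [nv_im, nv_im]
    exact mul_lt_mul_of_pos_left hz (by positivity)
  refine ⟨deltaT hΩ h0 hD.ha hD.hb hD.hd ?_ m, ?_⟩
  · intro h
    apply hcne
    linear_combination (1 / 2 : ℂ) * h
  obtain ⟨L, hL1, hL2, hL3⟩ := exists_L hcv hD
  refine ⟨fun k => ofFun (Fz L a c r k) (Fz_diff hL1 k), ?_, ?_⟩
  · intro k
    apply mem_DInfty
    · have hopen : IsOpen {s : ℂ | |(nv a r s).im| < (nv a r z0).im} := by
        apply isOpen_lt _ continuous_const
        exact (Complex.continuous_im.comp (nv_cont a r)).abs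
      have hmem : a ∈ {s : ℂ | |(nv a r s).im| < (nv a r z0).im} := by
        change |(nv a r a).im| < (nv a r z0).im
        rw [nv_im, nv_im, sub_self, zero_div, Complex.zero_im, mul_zero, abs_zero]
        exact mul_pos (by positivity) hD.pos
      filter_upwards [hopen.mem_nhds hmem] with s hs
      unfold Fz
      have e : nv a r (2 * a - s) = - nv a r s := by unfold nv; field_simp; ring
      rw [e]
      exact Fu_odd k (hL2 _ hs)
    · have hopen : IsOpen {s : ℂ | (nv a r z0).im < (nv a r s).im ∧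
          (nv a r z0).im < (nv a r (2 * c - s)).im} := by
        apply IsOpen.and
        · exact isOpen_lt continuous_const (Complex.continuous_im.comp (nv_cont a r))
        · refine isOpen_lt continuous_const (Complex.continuous_im.comp ?_)
          exact (nv_cont a r).comp (by fun_prop)
      have hmem : c ∈ {s : ℂ | (nv a r z0).im < (nv a r s).im ∧
          (nv a r z0).im < (nv a r (2 * c - s)).im} := by
        refine ⟨hlt c hD.hc, ?_⟩
        rw [show 2 * c - c = c by ring]
        exact hlt c hD.hc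
      filter_upwards [hopen.mem_nhds hmem] with s hs
      rw [Fz_sum hr hL3 k hs.1, Fz_sum hr hL3 k hs.2]
      have e : nv a r (2 * c - s) - nv a r c = -(nv a r s - nv a r c) := by
        unfold nv; field_simp; ring
      rw [e, mul_neg, Complex.sin_neg]
      ring
  · intro s w hw
    have him : (nv a r c).im ≠ 0 := by
      rw [nv_im]
      exact (mul_pos (by positivity) hca).ne'
    -- the relation near `z1`
    set V : Set ℂ := {y : ℂ | y + 2 * (c - a) + r ∈ Ω ∧ y + 2 * (c - a) - r ∈ Ω ∧ y + r ∈ Ω ∧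
      y - r ∈ Ω ∧ (nv a r z0).im < (nv a r y).im} with hV
    have hVo : IsOpen V := by
      have c1 : Continuous fun y : ℂ => y + 2 * (c - a) + r := by fun_prop
      have c2 : Continuous fun y : ℂ => y + 2 * (c - a) - r := by fun_prop
      have c3 : Continuous fun y : ℂ => y + r := by fun_prop
      have c4 : Continuous fun y : ℂ => y - r := by fun_prop
      exact (hΩ.preimage c1).inter ((hΩ.preimage c2).inter ((hΩ.preimage c3).inter
        ((hΩ.preimage c4).inter
          (isOpen_lt continuous_const (Complex.continuous_im.comp (nv_cont a r))))))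
    have hz1 : z1 ∈ V := ⟨hD.h3, hD.h4, hD.h1, hD.h2, hlt z1 hD.hz⟩
    have hval : ∀ z (hz : z ∈ Ω),
        (∑ k ∈ s, w k • (ofFun (Fz L a c r k) (Fz_diff hL1 k) : A Ω) : A Ω).1 ⟨z, hz⟩ =
        ∑ k ∈ s, w k * Fz L a c r k z := by
      intro z hz
      have e1 : (∑ k ∈ s, w k • (ofFun (Fz L a c r k) (Fz_diff hL1 k) : A Ω) : A Ω).1 ⟨z, hz⟩ =
        evalAt ⟨z, hz⟩ (∑ k ∈ s, w k • (ofFun (Fz L a c r k) (Fz_diff hL1 k) : A Ω)) := rfl
      rw [e1, map_sum]
      refine Finset.sum_congr rfl fun k _ => ?_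
      rw [map_smul, evalAt_apply, smul_eq_mul]
      rfl
    have hrel : ∀ y ∈ V, ∑ k ∈ s, (w k * (4 * (-1) ^ (k + 1) *
        Complex.sin (2 * (k + 1 : ℕ) * nv a r c))) * Complex.cos (2 * (k + 1 : ℕ) * nv a r y)
        = 0 := by
      intro y hy
      obtain ⟨y1, y2, y3, y4, y5⟩ := hy
      have h := cl_rel hΩ hcv h0 hD.ha hD.hb hD.hd m hm _ hw y1 y2 y3 y4 rfl rfl rfl rfl
      rw [hval, hval, hval, hval, ← Finset.sum_add_distrib, ← Finset.sum_sub_distrib,
        ← Finset.sum_sub_distrib] at h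
      rw [← h]
      refine Finset.sum_congr rfl fun k _ => ?_
      have y6 : (nv a r z0).im < (nv a r (y + 2 * (c - a))).im := by
        have e : nv a r (y + 2 * (c - a)) = nv a r y + ((2 : ℝ) : ℂ) * nv a r c := by
          unfold nv; push_cast; field_simp; ring
        rw [e, Complex.add_im, Complex.im_ofReal_mul, nv_im a r c]
        have := mul_pos (show 0 < Real.pi / 2 by positivity) hca
        linarith
      have s1 := Fz_sum (c := c) hr hL3 k y5
      have s2 := Fz_sum (c := c) hr hL3 k y6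
      have e : nv a r (y + 2 * (c - a)) - nv a r c = nv a r y + nv a r c := by
        unfold nv; push_cast; field_simp; ring
      rw [e, mul_add, Complex.sin_add] at s2
      rw [mul_sub, Complex.sin_sub] at s1
      linear_combination (-w k) * s2 + (w k) * s1
    obtain ⟨ε, hε, hball⟩ := Metric.isOpen_iff.mp hVo z1 hz1
    -- move along `r`
    set ε' : ℝ := (Real.pi / 2) * (ε / ‖r‖) with hε'
    have hrn : 0 < ‖r‖ := norm_pos_iff.mpr hr
    have hε'0 : 0 < ε' := by positivity
    have hfin := cos_indep s (fun k => w k * (4 * (-1) ^ (k + 1) *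
        Complex.sin (2 * (k + 1 : ℕ) * nv a r c))) (nv a r z1) hε'0 (by
      intro t ht1 ht2
      have hmem : z1 + ((2 / Real.pi * t : ℝ) : ℂ) * r ∈ V := by
        apply hball
        rw [mem_ball_iff_norm, add_sub_cancel_left, norm_mul, Complex.norm_real,
          Real.norm_of_nonneg (by positivity)]
        rw [hε'] at ht2
        have : 2 / Real.pi * t < 2 / Real.pi * ((Real.pi / 2) * (ε / ‖r‖)) :=
          mul_lt_mul_of_pos_left ht2 (by positivity)
        calc 2 / Real.pi * t * ‖r‖ < 2 / Real.pi * ((Real.pi / 2) * (ε / ‖r‖)) * ‖r‖ :=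
              mul_lt_mul_of_pos_right this hrn
          _ = ε := by field_simp
      have h := hrel _ hmem
      have e : nv a r (z1 + ((2 / Real.pi * t : ℝ) : ℂ) * r) = nv a r z1 + t := by
        have hpi' : (Real.pi : ℂ) ≠ 0 := by exact_mod_cast Real.pi_ne_zero
        unfold nv; push_cast; field_simp; ring
      rw [e] at h
      exact h)
    intro k hk
    have h := hfin k hk
    beta_reduce at h
    have hne : (4 * (-1) ^ (k + 1) * Complex.sin (2 * (k + 1 : ℕ) * nv a r c) : ℂ) ≠ 0 := by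
      refine mul_ne_zero (mul_ne_zero (by norm_num) (pow_ne_zero _ (by norm_num))) (sin_ne him)
    exact (mul_eq_zero.mp h).resolve_right hne

end

end Pool.Agent.KS6_40.CR
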