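import Pool.Agent.KS6_40.CR.Rel

set_option autoImplicit false

/-! Closure of root vectors: the explicit functions and their independence. -/

namespace Pool.Agent.KS6_40.CR

open Filter Topology
open Pool.Agent.Results.MP_f3b8e9_an.ConvexClosureFails
open Pool.Agent.Y519.CF

/-- the function in the normalised variable -/
noncomputable def Fu (L : ℂ → ℂ) (uc : ℂ) (k : ℕ) (u : ℂ) : ℂ :=
  Complex.sin (2 * (k + 1 : ℕ) * (u - uc)) +
    2 * Complex.sin (2 * (k + 1 : ℕ) * uc) * Complex.cos (2 * (k + 1 : ℕ) * u) * L u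

lemma Fu_odd {L : ℂ → ℂ} {uc : ℂ} (k : ℕ) {u : ℂ} (h : L (-u) = 1 - L u) :
    Fu L uc k (-u) = - Fu L uc k u := by
  unfold Fu
  rw [h, show 2 * ((k + 1 : ℕ) : ℂ) * (-u - uc) =
      -(2 * ((k + 1 : ℕ) : ℂ) * u) - 2 * ((k + 1 : ℕ) : ℂ) * uc by ring,
    show 2 * ((k + 1 : ℕ) : ℂ) * (u - uc) =
      (2 * ((k + 1 : ℕ) : ℂ) * u) - 2 * ((k + 1 : ℕ) : ℂ) * uc by ring,
    show 2 * ((k + 1 : ℕ) : ℂ) * -u = -(2 * ((k + 1 : ℕ) : ℂ) * u) by ring,
    Complex.cos_neg, Complex.sin_sub, Complex.sin_sub, Complex.sin_neg, Complex.cos_neg]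
  ring

lemma sin_shift (x : ℂ) (n : ℕ) : Complex.sin (x + n * Real.pi) = (-1) ^ n * Complex.sin x := by
  induction n with
  | zero => simp
  | succ n ih =>
    rw [show x + ((n + 1 : ℕ) : ℂ) * Real.pi = (x + n * Real.pi) + Real.pi by push_cast; ring,
      Complex.sin_add_pi, ih, pow_succ]
    ring

lemma cos_shift (x : ℂ) (n : ℕ) : Complex.cos (x + n * Real.pi) = (-1) ^ n * Complex.cos x := by
  induction n with
  | zero => simp
  | succ n ih =>
    rw [show x + ((n + 1 : ℕ) : ℂ) * Real.pi = (x + n * Real.pi) + Real.pi by push_cast; ring,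
      Complex.cos_add_pi, ih, pow_succ]
    ring

lemma sin_shift' (x : ℂ) (n : ℕ) : Complex.sin (x - n * Real.pi) = (-1) ^ n * Complex.sin x := by
  have h := sin_shift (x - n * Real.pi) n
  rw [sub_add_cancel] at h
  rw [h, ← mul_assoc, ← mul_pow]
  norm_num

lemma cos_shift' (x : ℂ) (n : ℕ) : Complex.cos (x - n * Real.pi) = (-1) ^ n * Complex.cos x := by
  have h := cos_shift (x - n * Real.pi) n
  rw [sub_add_cancel] at h
  rw [h, ← mul_assoc, ← mul_pow]
  norm_num

lemma Fu_sum {L : ℂ → ℂ} {uc : ℂ} (k : ℕ) {u : ℂ}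
    (h : L (u + Real.pi / 2) = - L (u - Real.pi / 2)) :
    Fu L uc k (u + Real.pi / 2) + Fu L uc k (u - Real.pi / 2) =
      2 * (-1) ^ (k + 1) * Complex.sin (2 * (k + 1 : ℕ) * (u - uc)) := by
  unfold Fu
  rw [h, show 2 * ((k + 1 : ℕ) : ℂ) * (u + Real.pi / 2 - uc) =
      2 * ((k + 1 : ℕ) : ℂ) * (u - uc) + ((k + 1 : ℕ) : ℂ) * Real.pi by ring,
    show 2 * ((k + 1 : ℕ) : ℂ) * (u - Real.pi / 2 - uc) =
      2 * ((k + 1 : ℕ) : ℂ) * (u - uc) - ((k + 1 : ℕ) : ℂ) * Real.pi by ring,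
    show 2 * ((k + 1 : ℕ) : ℂ) * (u + Real.pi / 2) =
      2 * ((k + 1 : ℕ) : ℂ) * u + ((k + 1 : ℕ) : ℂ) * Real.pi by ring,
    show 2 * ((k + 1 : ℕ) : ℂ) * (u - Real.pi / 2) =
      2 * ((k + 1 : ℕ) : ℂ) * u - ((k + 1 : ℕ) : ℂ) * Real.pi by ring,
    sin_shift, sin_shift', cos_shift, cos_shift']
  ring

/-- independence of `cos (2 (k+1) u)` on a segment -/
lemma cos_indep (s : Finset ℕ) (w : ℕ → ℂ) (u1 : ℂ) {ε : ℝ} (hε : 0 < ε)
    (h : ∀ t : ℝ, 0 < t → t < ε →
      ∑ k ∈ s, w k * Complex.cos (2 * (k + 1 : ℕ) * (u1 + t)) = 0) : ∀ k ∈ s, w k = 0 := by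
  set N : ℕ := s.sup id + 1 with hN
  have hNk : ∀ k ∈ s, k + 1 ≤ N := by
    intro k hk
    have : k ≤ s.sup id := Finset.le_sup (f := id) hk
    omega
  set p : Polynomial ℂ := ∑ k ∈ s, Polynomial.C (w k) *
    (Polynomial.X ^ (N + (k + 1)) + Polynomial.X ^ (N - (k + 1))) with hp
  have hroot : ∀ t : ℝ, 0 < t → t < ε → p.eval (Complex.exp (2 * (u1 + t) * Complex.I)) = 0 := by
    intro t ht1 ht2
    set x : ℂ := Complex.exp (2 * (u1 + t) * Complex.I) with hx
    have hx0 : x ≠ 0 := Complex.exp_ne_zero _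
    have hcos : ∀ k ∈ s, x ^ (N + (k + 1)) + x ^ (N - (k + 1)) =
        x ^ N * (2 * Complex.cos (2 * (k + 1 : ℕ) * (u1 + t))) := by
      intro k hk
      have h1 : x ^ (k + 1) = Complex.exp (2 * (k + 1 : ℕ) * (u1 + t) * Complex.I) := by
        rw [hx, ← Complex.exp_nat_mul]
        congr 1
        ring
      have h2 : x ^ N = x ^ (N - (k + 1)) * x ^ (k + 1) := by
        rw [← pow_add]
        congr 1
        have := hNk k hk
        omega
      have h3 : (2 * Complex.cos (2 * (k + 1 : ℕ) * (u1 + t)) : ℂ) =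
          x ^ (k + 1) + (x ^ (k + 1))⁻¹ := by
        rw [h1, ← Complex.exp_neg, Complex.two_cos]
        congr 2
        ring
      rw [h3, pow_add, mul_add]
      congr 1
      rw [h2]
      field_simp
    rw [hp, Polynomial.eval_finsetSum]
    have : ∀ k ∈ s, (Polynomial.C (w k) * (Polynomial.X ^ (N + (k + 1)) +
        Polynomial.X ^ (N - (k + 1)))).eval x =
        (2 * x ^ N) * (w k * Complex.cos (2 * (k + 1 : ℕ) * (u1 + t))) := by
      intro k hk
      rw [Polynomial.eval_mul, Polynomial.eval_C, Polynomial.eval_add, Polynomial.eval_pow,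
        Polynomial.eval_pow, Polynomial.eval_X, hcos k hk]
      ring
    rw [Finset.sum_congr rfl this, ← Finset.mul_sum, h t ht1 ht2, mul_zero]
  have hp0 : p = 0 := by
    apply Polynomial.eq_zero_of_infinite_isRoot
    set ε' : ℝ := min ε 1 with hε'
    have hε1 : 0 < ε' := lt_min hε one_pos
    have hinj : Set.InjOn (fun t : ℝ => Complex.exp (2 * (u1 + t) * Complex.I)) (Set.Ioo 0 ε') := by
      intro t ht t' ht' hxy
      beta_reduce at hxy
      rw [Complex.exp_eq_exp_iff_exists_int] at hxy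
      obtain ⟨n, hn⟩ := hxy
      have h1 : (t : ℂ) = t' + n * Real.pi := by
        have h2 : (2 * Complex.I) * (t : ℂ) = (2 * Complex.I) * (t' + n * Real.pi) := by
          linear_combination hn
        exact mul_left_cancel₀ (by simp) h2
      have h2 : t = t' + n * Real.pi := by exact_mod_cast h1
      have ht1 : t < 1 := ht.2.trans_le (min_le_right _ _)
      have ht1' : t' < 1 := ht'.2.trans_le (min_le_right _ _)
      have h3 := ht.1
      have h4 := ht'.1
      have hpi := Real.pi_gt_three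
      have hn0 : n = 0 := by
        by_contra hne
        rcases lt_or_gt_of_ne hne with h | h
        · have : (n : ℝ) ≤ -1 := by exact_mod_cast (by omega : n ≤ -1)
          nlinarith
        · have : (1 : ℝ) ≤ n := by exact_mod_cast (by omega : 1 ≤ n)
          nlinarith
      rw [hn0] at h2
      simpa using h2
    refine ((Set.Ioo_infinite hε1).image hinj).mono ?_
    rintro _ ⟨t, ht, rfl⟩
    exact hroot t ht.1 (ht.2.trans_le (min_le_left _ _))
  intro k hk
  have hc : p.coeff (N + (k + 1)) = w k := by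
    rw [hp, Polynomial.finsetSum_coeff, Finset.sum_eq_single k]
    · rw [Polynomial.coeff_C_mul, Polynomial.coeff_add, Polynomial.coeff_X_pow,
        Polynomial.coeff_X_pow, if_pos rfl, if_neg (by omega)]
      ring
    · intro j hj hjk
      rw [Polynomial.coeff_C_mul, Polynomial.coeff_add, Polynomial.coeff_X_pow,
        Polynomial.coeff_X_pow, if_neg (by omega), if_neg (by omega)]
      ring
    · intro h; exact absurd hk h
  rw [← hc, hp0, Polynomial.coeff_zero]

/-- sine does not vanish off the real axis -/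
lemma sin_ne {k : ℕ} {u : ℂ} (h : u.im ≠ 0) : Complex.sin (2 * (k + 1 : ℕ) * u) ≠ 0 := by
  rw [Complex.sin_ne_zero_iff]
  intro n hn
  apply h
  have h1 := congrArg Complex.im hn
  have e1 : (2 * ((k + 1 : ℕ) : ℂ) * u).im = 2 * (k + 1 : ℕ) * u.im := by
    have : (2 * ((k + 1 : ℕ) : ℂ) * u) = ((2 * (k + 1 : ℕ) : ℝ) : ℂ) * u := by push_cast; ring
    rw [this, Complex.im_ofReal_mul]
  have e2 : ((n : ℂ) * Real.pi).im = 0 := by simp
  rw [e1, e2] at h1
  have h2 : (2 * ((k + 1 : ℕ) : ℝ)) ≠ 0 := by positivity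
  exact (mul_eq_zero.mp h1).resolve_left h2

end Pool.Agent.KS6_40.CR
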