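import Pool.Agent.KS6_40.CR.Core

set_option autoImplicit false

/-! Closure of root vectors: every convex domain without lines has a configuration. -/

namespace Pool.Agent.KS6_40.CR

open Filter Topology

/-- the oriented area form -/
def cross (w r : ℂ) : ℝ := w.im * r.re - w.re * r.im

lemma div_im' (w r : ℂ) : (w / r).im = cross w r / Complex.normSq r := by
  unfold cross
  rw [Complex.div_im]
  ring

lemma cross_neg (w r : ℂ) : cross w (-r) = - cross w r := by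
  unfold cross
  simp
  ring

/-- the end point of a ray in a closed convex set -/
lemma ray_end {K : Set ℂ} (hK : IsClosed K) (hc : Convex ℝ K) {v0 t0 : ℂ} (hv0 : v0 ∈ K)
    {τ1 : ℝ} (hτ : 0 < τ1) (h1 : v0 + τ1 * t0 ∉ K) :
    ∃ τ0 : ℝ, v0 + τ0 * t0 ∈ K ∧ ∀ ε : ℝ, 0 < ε → v0 + τ0 * t0 + ε * t0 ∉ K := by
  set S : Set ℝ := Set.Icc 0 τ1 ∩ {τ | v0 + τ * t0 ∈ K} with hS
  have hcont : Continuous fun τ : ℝ => v0 + (τ : ℂ) * t0 := by fun_prop
  have hScl : IsCompact S := isCompact_Icc.inter_right (hK.preimage hcont)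
  have hSne : S.Nonempty := ⟨0, ⟨le_refl _, hτ.le⟩, by simpa using hv0⟩
  obtain ⟨τ0, hτ0, hmax⟩ := hScl.exists_isGreatest hSne
  refine ⟨τ0, hτ0.2, ?_⟩
  intro ε hε hin
  have hlt : τ0 < τ1 := by
    rcases lt_or_eq_of_le hτ0.1.2 with h | h
    · exact h
    · exfalso
      apply h1
      rw [← h]
      exact hτ0.2
  set e : ℝ := min ε (τ1 - τ0) with he
  have he0 : 0 < e := lt_min hε (by linarith)
  have hein : v0 + ((τ0 + e : ℝ) : ℂ) * t0 ∈ K := by
    have h2 := hc hτ0.2 hin (a := 1 - e / ε) (b := e / ε)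
      (by
        have : e / ε ≤ 1 := (div_le_one hε).mpr (min_le_left _ _)
        linarith) (by positivity) (by ring)
    have e2 : (1 - e / ε) • (v0 + (τ0 : ℂ) * t0) + (e / ε) • (v0 + (τ0 : ℂ) * t0 + (ε : ℂ) * t0) =
        v0 + ((τ0 + e : ℝ) : ℂ) * t0 := by
      simp only [Complex.real_smul]
      push_cast
      have : (ε : ℂ) ≠ 0 := by exact_mod_cast hε.ne'
      field_simp
      ring
    rw [← e2]
    exact h2
  have h3 : τ0 + e ≤ τ0 := hmax ⟨⟨by linarith [hτ0.1.1], by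
    have := min_le_right ε (τ1 - τ0)
    linarith⟩, hein⟩
  linarith

lemma exists_vertex {Ω : Set ℂ} (hΩ : IsOpen Ω) (hcv : Convex ℝ Ω) (h0 : (0 : ℂ) ∈ Ω)
    (hline : ∀ p d : ℂ, d ≠ 0 → ∃ t : ℝ, p + t * d ∉ Ω) :
    ∃ (v t : ℂ) (g : ℂ →L[ℝ] ℝ), v ∈ closure Ω ∧ (∀ z ∈ Ω, g z < g v) ∧ t ≠ 0 ∧ g t = 0 ∧
      ∀ ε : ℝ, 0 < ε → v - ε * t ∉ closure Ω := by
  have hne : Ω ≠ Set.univ := by
    intro h
    obtain ⟨t, ht⟩ := hline 0 1 one_ne_zero
    apply ht
    rw [h]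
    trivial
  obtain ⟨v0, hv0⟩ := nonempty_frontier_iff.mpr ⟨⟨0, h0⟩, hne⟩
  have hv0K : v0 ∈ closure Ω := frontier_subset_closure hv0
  have hv0n : v0 ∉ Ω := by
    rw [hΩ.frontier_eq] at hv0
    exact hv0.2
  obtain ⟨g, hg⟩ := geometric_hahn_banach_open_point hcv hΩ hv0n
  have hg0 : 0 < g v0 := by simpa using hg 0 h0
  -- a direction in the kernel
  set t0 : ℂ := (g Complex.I : ℝ) • (1 : ℂ) - (g 1 : ℝ) • Complex.I with ht0
  have hgt0 : g t0 = 0 := by
    rw [ht0, map_sub, map_smul, map_smul, smul_eq_mul, smul_eq_mul]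
    ring
  have hgv : ∀ z : ℂ, g z = z.re * g 1 + z.im * g Complex.I := by
    intro z
    have e : z = z.re • (1 : ℂ) + z.im • Complex.I := by
      apply Complex.ext <;> simp
    conv_lhs => rw [e]
    rw [map_add, map_smul, map_smul, smul_eq_mul, smul_eq_mul]
  have ht0ne : t0 ≠ 0 := by
    intro h
    have h1 := congrArg Complex.re h
    have h2 := congrArg Complex.im h
    simp [ht0] at h1 h2
    have h3 := hgv v0
    rw [h1, h2] at h3
    simp at h3
    linarith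
  -- the supporting line is not contained in the closure
  have hex : ∃ τ : ℝ, v0 + τ * t0 ∉ closure Ω := by
    by_contra hall
    push Not at hall
    obtain ⟨τ, hτ⟩ := hline 0 t0 ht0ne
    apply hτ
    -- a small weight
    have hcont : ContinuousAt (fun l : ℝ => (((1 - l)⁻¹ * (-l) : ℝ) : ℂ) * v0) 0 := by
      have h1 : ContinuousAt (fun l : ℝ => (1 - l)⁻¹ * (-l)) 0 := by
        apply ContinuousAt.mul
        · apply ContinuousAt.inv₀ (by fun_prop)
          norm_num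
        · fun_prop
      exact (Complex.continuous_ofReal.continuousAt.comp h1).mul continuousAt_const
    have h2 : ∀ᶠ l in 𝓝 (0 : ℝ), (((1 - l)⁻¹ * (-l) : ℝ) : ℂ) * v0 ∈ Ω := by
      apply hcont
      apply hΩ.mem_nhds
      simpa using h0
    have h3 : ∀ᶠ l in 𝓝[>] (0 : ℝ), (((1 - l)⁻¹ * (-l) : ℝ) : ℂ) * v0 ∈ Ω :=
      h2.filter_mono nhdsWithin_le_nhds
    have h4 : ∀ᶠ l in 𝓝[>] (0 : ℝ), l ∈ Set.Ioo (0 : ℝ) 1 :=
      Ioo_mem_nhdsGT one_pos
    obtain ⟨l, hl1, hl2⟩ := (h3.and h4).exists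
    have hx : (((1 - l)⁻¹ * (-l) : ℝ) : ℂ) * v0 ∈ interior Ω := by rwa [hΩ.interior_eq]
    have hy : v0 + ((τ / l : ℝ) : ℂ) * t0 ∈ closure Ω := hall _
    have h5 := hcv.combo_interior_closure_mem_interior hx hy
      (a := 1 - l) (b := l) (by linarith [hl2.2]) hl2.1.le (by ring)
    rw [hΩ.interior_eq] at h5
    have e : (1 - l) • ((((1 - l)⁻¹ * (-l) : ℝ) : ℂ) * v0) + l • (v0 + ((τ / l : ℝ) : ℂ) * t0) =
        0 + (τ : ℂ) * t0 := by
      have a1 : (l : ℂ) ≠ 0 := by exact_mod_cast hl2.1.ne'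
      have a2 : (1 - (l : ℂ)) ≠ 0 := by
        have : (1 - l : ℝ) ≠ 0 := by linarith [hl2.2]
        exact_mod_cast this
      simp only [Complex.real_smul]
      push_cast
      field_simp
      ring
    rw [← e]
    exact h5
  obtain ⟨τ1, hτ1⟩ := hex
  have hKc : Convex ℝ (closure Ω) := hcv.closure
  have hτne : τ1 ≠ 0 := by
    rintro rfl
    apply hτ1
    simpa using hv0K
  -- the two orientations
  have main : ∀ (t' : ℂ) (τ' : ℝ), 0 < τ' → v0 + τ' * t' ∉ closure Ω → t' ≠ 0 → g t' = 0 →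
      ∃ (v t : ℂ) (g : ℂ →L[ℝ] ℝ), v ∈ closure Ω ∧ (∀ z ∈ Ω, g z < g v) ∧ t ≠ 0 ∧ g t = 0 ∧
      ∀ ε : ℝ, 0 < ε → v - ε * t ∉ closure Ω := by
    intro t' τ' hpos hnot hne' hgt'
    obtain ⟨τ0, h1, h2⟩ := ray_end isClosed_closure hKc hv0K hpos hnot
    refine ⟨v0 + τ0 * t', -t', g, h1, ?_, neg_ne_zero.mpr hne', ?_, ?_⟩
    · intro z hz
      have : g (v0 + (τ0 : ℂ) * t') = g v0 := by
        rw [map_add, ← Complex.real_smul, map_smul, hgt', smul_zero, add_zero]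
      rw [this]
      exact hg z hz
    · rw [map_neg, hgt', neg_zero]
    · intro ε hε
      rw [mul_neg, sub_neg_eq_add]
      exact h2 ε hε
  rcases lt_or_gt_of_ne hτne with h | h
  · refine main (-t0) (-τ1) (by linarith) ?_ (neg_ne_zero.mpr ht0ne) (by rw [map_neg, hgt0, neg_zero])
    have e : v0 + ((-τ1 : ℝ) : ℂ) * -t0 = v0 + τ1 * t0 := by push_cast; ring
    rw [e]
    exact hτ1
  · exact main t0 τ1 h hτ1 ht0ne hgt0

lemma ev_small (C D : ℝ) (hD : 0 < D) : ∀ᶠ x in 𝓝[>] (0 : ℝ), x * C < D := by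
  have h : Tendsto (fun x : ℝ => x * C) (𝓝[>] 0) (𝓝 0) := by
    have : Tendsto (fun x : ℝ => x * C) (𝓝 0) (𝓝 (0 * C)) := (by fun_prop : Continuous
      fun x : ℝ => x * C).tendsto 0
    rw [zero_mul] at this
    exact this.mono_left nhdsWithin_le_nhds
  exact h.eventually (gt_mem_nhds hD)

lemma ev_pos : ∀ᶠ x in 𝓝[>] (0 : ℝ), 0 < x := self_mem_nhdsWithin

lemma ev_out {K : Set ℂ} (hK : IsClosed K) {p q : ℂ} (hp : p ∉ K) :
    ∀ᶠ x : ℝ in 𝓝[>] (0 : ℝ), p - (x : ℂ) * q ∉ K := by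
  have h : Tendsto (fun x : ℝ => p - (x : ℂ) * q) (𝓝 0) (𝓝 p) := by
    have : Tendsto (fun x : ℝ => p - (x : ℂ) * q) (𝓝 0) (𝓝 (p - ((0 : ℝ) : ℂ) * q)) :=
      (by fun_prop : Continuous fun x : ℝ => p - (x : ℂ) * q).tendsto 0
    simpa using this
  exact (h.mono_left nhdsWithin_le_nhds).eventually (hK.isOpen_compl.mem_nhds hp)

/-- every convex domain which contains no line has a configuration -/
theorem exists_config {Ω : Set ℂ} (hΩ : IsOpen Ω) (hcv : Convex ℝ Ω) (h0 : (0 : ℂ) ∈ Ω)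
    (hline : ∀ p d : ℂ, d ≠ 0 → ∃ t : ℝ, p + t * d ∉ Ω) :
    ∃ a c r z0 z1 : ℂ, Config Ω a c r z0 z1 := by
  obtain ⟨v, t, g, hvK, hg, htne, hgt, hout⟩ := exists_vertex hΩ hcv h0 hline
  have hgv0 : 0 < g v := by simpa using hg 0 h0
  have hnotin : ∀ z : ℂ, g v ≤ g z → z ∉ Ω := fun z hz hin => absurd (hg z hin) (not_lt.mpr hz)
  have hP : ∀ y : ℝ, 0 < y → y ≤ 1 → ((1 - y : ℝ) : ℂ) * v ∈ Ω := by
    intro y hy1 hy2
    have h := hcv.combo_interior_closure_mem_interior (x := 0) (y := v)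
      (by rwa [hΩ.interior_eq]) hvK hy1 (sub_nonneg.mpr hy2) (by ring)
    rw [hΩ.interior_eq, smul_zero, zero_add, Complex.real_smul] at h
    exact h
  have hgen : ∀ x y : ℝ, g ((x : ℂ) * v + (y : ℂ) * t) = x * g v := by
    intro x y
    rw [map_add, ← Complex.real_smul, ← Complex.real_smul, map_smul, map_smul, hgt, smul_zero,
      add_zero, smul_eq_mul]
  -- independence of `t` and `v`
  have hκ : cross t v ≠ 0 := by
    intro hz
    have hgz : ∀ z : ℂ, g z = z.re * g 1 + z.im * g Complex.I := by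
      intro z
      have e : z = z.re • (1 : ℂ) + z.im • Complex.I := by
        apply Complex.ext <;> simp
      conv_lhs => rw [e]
      rw [map_add, map_smul, map_smul, smul_eq_mul, smul_eq_mul]
    have h1 := hgz t
    have h2 := hgz v
    rw [hgt] at h1
    unfold cross at hz
    have h3 : t.im * g v = 0 := by
      rw [h2]; linear_combination (g 1) * hz - v.im * h1
    have h4 : t.re * g v = 0 := by
      rw [h2]; linear_combination (-(g Complex.I)) * hz - v.re * h1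
    apply htne
    apply Complex.ext
    · exact (mul_eq_zero.mp h4).resolve_right hgv0.ne'
    · exact (mul_eq_zero.mp h3).resolve_right hgv0.ne'
  -- the radius
  obtain ⟨ρ1, hρ1, hb1⟩ := Metric.isOpen_iff.mp hΩ _ (hP (1 / 4) (by norm_num) (by norm_num))
  obtain ⟨ρ2, hρ2, hb2⟩ := Metric.isOpen_iff.mp hΩ _ (hP (1 / 8) (by norm_num) (by norm_num))
  obtain ⟨ρ3, hρ3, hb3⟩ := Metric.isOpen_iff.mp hΩ _ (hP (5 / 8) (by norm_num) (by norm_num))
  set ρ : ℝ := min ρ1 (min ρ2 ρ3) with hρ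
  have hρ0 : 0 < ρ := lt_min hρ1 (lt_min hρ2 hρ3)
  have hle1 : ρ ≤ ρ1 := min_le_left _ _
  have hle2 : ρ ≤ ρ2 := (min_le_right _ _).trans (min_le_left _ _)
  have hle3 : ρ ≤ ρ3 := (min_le_right _ _).trans (min_le_right _ _)
  -- the parameters
  obtain ⟨ε, hε1, hε0⟩ := ((ev_small ‖t‖ (ρ / 2) (by positivity)).and ev_pos).exists
  obtain ⟨δ, ⟨hδ1, hδ2⟩, hδ0⟩ := (((ev_small ‖v‖ (ρ / 2) (by positivity)).and
    (ev_out isClosed_closure (q := v) (hout ε hε0))).and ev_pos).exists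
  obtain ⟨η, hη0, hηb⟩ := Metric.isOpen_iff.mp isClosed_closure.isOpen_compl _ hδ2
  obtain ⟨e, ⟨he1, he2⟩, he0⟩ := (((ev_small ‖t‖ (η / 2) (by positivity)).and
    (ev_small δ (ε / 16) (by positivity))).and ev_pos).exists
  obtain ⟨d, ⟨⟨⟨hd1, hd2⟩, hd3⟩, hd4⟩, hd0⟩ := (((((ev_small 1 δ hδ0).and
    (ev_small ε (e * δ) (by positivity))).and (ev_small ‖v‖ (η / 2) (by positivity))).and
    (ev_out isClosed_closure (q := v) (hout e he0))).and ev_pos).exists
  obtain ⟨h, ⟨⟨hh1, hh2⟩, hh3⟩, hh0⟩ := ((((ev_small 2 d hd0).and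
    (ev_small 1 (1 / 32) (by norm_num))).and (ev_small (2 * ‖v‖) (ρ / 2) (by positivity))).and
    ev_pos).exists
  rw [mul_one] at hd1 hh2
  -- the points
  set r : ℂ := ((ε / 2 : ℝ) : ℂ) * t + ((δ / 2 : ℝ) : ℂ) * v with hr
  have hrn : ‖r‖ < ρ / 2 := by
    calc ‖r‖ ≤ ‖((ε / 2 : ℝ) : ℂ) * t‖ + ‖((δ / 2 : ℝ) : ℂ) * v‖ := norm_add_le _ _
      _ = ε / 2 * ‖t‖ + δ / 2 * ‖v‖ := by
        rw [norm_mul, norm_mul, Complex.norm_real, Complex.norm_real,
          Real.norm_of_nonneg (by positivity), Real.norm_of_nonneg (by positivity)]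
      _ < ρ / 2 := by linarith
  have hgr : 0 < g r := by
    have : r = ((δ / 2 : ℝ) : ℂ) * v + ((ε / 2 : ℝ) : ℂ) * t := by rw [hr]; ring
    rw [this, hgen]
    positivity
  have hrne : r ≠ 0 := by
    intro h
    rw [h, map_zero] at hgr
    exact lt_irrefl _ hgr
  set a : ℂ := ((1 - h : ℝ) : ℂ) * v with ha
  set c : ℂ := ((1 - 1 / 4 : ℝ) : ℂ) * v with hc
  set z1 : ℂ := ((1 - 1 / 8 : ℝ) : ℂ) * v with hz1
  set z0 : ℂ := ((1 + d - 2 * h : ℝ) : ℂ) * v + (e : ℂ) * t with hz0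
  have haΩ : a ∈ Ω := hP h hh0 (by linarith)
  have hcp : ∀ w : ℂ, ‖w‖ < ρ / 2 → c + w ∈ Ω := by
    intro w hw
    apply hb1
    rw [mem_ball_iff_norm, add_sub_cancel_left]
    linarith
  have hzp : ∀ w : ℂ, ‖w‖ < ρ / 2 → z1 + w ∈ Ω := by
    intro w hw
    apply hb2
    rw [mem_ball_iff_norm, add_sub_cancel_left]
    linarith
  have hwp : ∀ w : ℂ, ‖w‖ < ρ / 2 → z1 + 2 * (c - a) + w ∈ Ω := by
    intro w hw
    apply hb3
    rw [mem_ball_iff_norm]
    have e1 : z1 + 2 * (c - a) + w - ((1 - 5 / 8 : ℝ) : ℂ) * v = ((h * 2 : ℝ) : ℂ) * v + w := by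
      rw [hz1, hc, ha]; push_cast; ring
    rw [e1]
    calc ‖((h * 2 : ℝ) : ℂ) * v + w‖ ≤ ‖((h * 2 : ℝ) : ℂ) * v‖ + ‖w‖ := norm_add_le _ _
      _ = h * (2 * ‖v‖) + ‖w‖ := by
        rw [norm_mul, Complex.norm_real, Real.norm_of_nonneg (by positivity)]; ring
      _ < ρ3 := by linarith
  have hnegr : ‖-r‖ < ρ / 2 := by rw [norm_neg]; exact hrn
  -- translates to the left
  have hnear : ∀ z : ℂ, ‖z - v‖ < η → ∀ j : ℕ, z - ((j + 1 : ℕ) : ℂ) * (2 * r) ∉ Ω := by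
    intro z hz j hin
    have hin' := subset_closure hin
    have hj : (0 : ℝ) < (j + 1 : ℕ) := by positivity
    have hj1 : (1 : ℝ) ≤ (j + 1 : ℕ) := by exact_mod_cast Nat.succ_le_succ (Nat.zero_le j)
    have hcvx := hcv.closure hvK hin' (a := 1 - 1 / ((j + 1 : ℕ) : ℝ)) (b := 1 / ((j + 1 : ℕ) : ℝ))
      (by
        have : 1 / ((j + 1 : ℕ) : ℝ) ≤ 1 := (div_le_one hj).mpr hj1
        linarith) (by positivity) (by ring)
    have e1 : (1 - 1 / ((j + 1 : ℕ) : ℝ)) • v + (1 / ((j + 1 : ℕ) : ℝ)) •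
        (z - ((j + 1 : ℕ) : ℂ) * (2 * r)) =
        (v - (ε : ℂ) * t - (δ : ℂ) * v) + ((1 / ((j + 1 : ℕ) : ℝ) : ℝ) : ℂ) * (z - v) := by
      have hj' : (((j + 1 : ℕ) : ℝ) : ℂ) ≠ 0 := by exact_mod_cast hj.ne'
      simp only [Complex.real_smul, hr]
      push_cast at hj' ⊢
      field_simp
      ring
    rw [e1] at hcvx
    have hmem : (v - (ε : ℂ) * t - (δ : ℂ) * v) + ((1 / ((j + 1 : ℕ) : ℝ) : ℝ) : ℂ) * (z - v) ∈
        Metric.ball (v - (ε : ℂ) * t - (δ : ℂ) * v) η := by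
      rw [mem_ball_iff_norm, add_sub_cancel_left, norm_mul, Complex.norm_real,
        Real.norm_of_nonneg (by positivity)]
      have : 1 / ((j + 1 : ℕ) : ℝ) ≤ 1 := (div_le_one hj).mpr hj1
      calc 1 / ((j + 1 : ℕ) : ℝ) * ‖z - v‖ ≤ 1 * ‖z - v‖ :=
            mul_le_mul_of_nonneg_right this (norm_nonneg _)
        _ < η := by rw [one_mul]; exact hz
    exact hηb hmem hcvx
  have hz0n : ‖z0 - v‖ < η := by
    have e1 : z0 - v = ((d - 2 * h : ℝ) : ℂ) * v + (e : ℂ) * t := by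
      rw [hz0]; push_cast; ring
    rw [e1]
    have hnn : 0 ≤ d - 2 * h := by linarith
    calc ‖((d - 2 * h : ℝ) : ℂ) * v + (e : ℂ) * t‖ ≤ ‖((d - 2 * h : ℝ) : ℂ) * v‖ + ‖(e : ℂ) * t‖ :=
          norm_add_le _ _
      _ = (d - 2 * h) * ‖v‖ + e * ‖t‖ := by
        rw [norm_mul, norm_mul, Complex.norm_real, Complex.norm_real, Real.norm_of_nonneg hnn,
          Real.norm_of_nonneg he0.le]
      _ ≤ d * ‖v‖ + e * ‖t‖ := by
        have := mul_le_mul_of_nonneg_right (show d - 2 * h ≤ d by linarith) (norm_nonneg v)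
        linarith
      _ < η := by linarith
  have hz0' : 2 * a - z0 = ((1 - d : ℝ) : ℂ) * v - (e : ℂ) * t := by
    rw [ha, hz0]; push_cast; ring
  have hz0n' : ‖2 * a - z0 - v‖ < η := by
    have e1 : 2 * a - z0 - v = -(((d : ℝ) : ℂ) * v + (e : ℂ) * t) := by
      rw [hz0']; push_cast; ring
    rw [e1, norm_neg]
    calc ‖((d : ℝ) : ℂ) * v + (e : ℂ) * t‖ ≤ ‖((d : ℝ) : ℂ) * v‖ + ‖(e : ℂ) * t‖ :=
          norm_add_le _ _
      _ = d * ‖v‖ + e * ‖t‖ := by
        rw [norm_mul, norm_mul, Complex.norm_real, Complex.norm_real, Real.norm_of_nonneg hd0.le,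
          Real.norm_of_nonneg he0.le]
      _ < η := by linarith
  have hsplit : ∀ (P : ℤ → Prop), (∀ n : ℕ, P n) → (∀ n : ℕ, P (-(n + 1 : ℕ))) → ∀ k, P k := by
    intro P h1 h2 k
    rcases le_or_gt 0 k with hk | hk
    · obtain ⟨n, rfl⟩ := Int.eq_ofNat_of_zero_le hk
      exact h1 n
    · obtain ⟨n, hn⟩ := Int.eq_ofNat_of_zero_le (show 0 ≤ -k - 1 by omega)
      have : k = -((n + 1 : ℕ) : ℤ) := by push_cast; omega
      rw [this]
      exact h2 n
  have hav1 : ∀ k : ℤ, z0 + 2 * k * r ∉ Ω := by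
    apply hsplit
    · intro n
      apply hnotin
      have e1 : z0 + 2 * ((n : ℤ) : ℂ) * r = ((1 + d - 2 * h + n * δ : ℝ) : ℂ) * v +
          ((e + n * ε : ℝ) : ℂ) * t := by
        rw [hz0, hr]; push_cast; ring
      rw [e1, hgen]
      have : 0 ≤ (n : ℝ) * δ := by positivity
      exact le_mul_of_one_le_left hgv0.le (by linarith)
    · intro n
      have e1 : z0 + 2 * ((-((n + 1 : ℕ) : ℤ) : ℤ) : ℂ) * r =
          z0 - ((n + 1 : ℕ) : ℂ) * (2 * r) := by
        push_cast; ring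
      rw [e1]
      exact hnear z0 hz0n n
  have hav2 : ∀ k : ℤ, 2 * a - z0 + 2 * k * r ∉ Ω := by
    apply hsplit
    · intro n
      rcases Nat.eq_zero_or_pos n with hn | hn
      · subst hn
        intro hin
        apply hd4
        apply subset_closure
        have e1 : v - (e : ℂ) * t - (d : ℂ) * v = 2 * a - z0 + 2 * (((0 : ℕ) : ℤ) : ℂ) * r := by
          rw [hz0']; push_cast; ring
        rw [e1]
        exact hin
      · apply hnotin
        have e1 : 2 * a - z0 + 2 * ((n : ℤ) : ℂ) * r = ((1 - d + n * δ : ℝ) : ℂ) * v +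
            ((-e + n * ε : ℝ) : ℂ) * t := by
          rw [hz0', hr]; push_cast; ring
        rw [e1, hgen]
        have : (1 : ℝ) ≤ n := by exact_mod_cast hn
        have : δ ≤ (n : ℝ) * δ := le_mul_of_one_le_left hδ0.le this
        exact le_mul_of_one_le_left hgv0.le (by linarith)
    · intro n
      have e1 : 2 * a - z0 + 2 * ((-((n + 1 : ℕ) : ℤ) : ℤ) : ℂ) * r =
          (2 * a - z0) - ((n + 1 : ℕ) : ℂ) * (2 * r) := by
        push_cast; ring
      rw [e1]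
      exact hnear _ hz0n' n
  -- heights
  have hcr : ∀ x y : ℝ, cross ((x : ℂ) * v + (y : ℂ) * t) r = (y * δ - x * ε) / 2 * cross t v := by
    intro x y
    unfold cross
    rw [hr]
    simp only [Complex.add_im, Complex.add_re, Complex.mul_im, Complex.mul_re, Complex.ofReal_re,
      Complex.ofReal_im, zero_mul, sub_zero, add_zero]
    ring
  have hh_c : cross (c - a) r = (1 / 4 - h) * ε / 2 * cross t v := by
    have e1 : c - a = ((h - 1 / 4 : ℝ) : ℂ) * v + ((0 : ℝ) : ℂ) * t := by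
      rw [hc, ha]; push_cast; ring
    rw [e1, hcr]; ring
  have hh_1 : cross (z1 - a) r = (1 / 8 - h) * ε / 2 * cross t v := by
    have e1 : z1 - a = ((h - 1 / 8 : ℝ) : ℂ) * v + ((0 : ℝ) : ℂ) * t := by
      rw [hz1, ha]; push_cast; ring
    rw [e1, hcr]; ring
  have hh_0 : cross (z0 - a) r = (e * δ - (d - h) * ε) / 2 * cross t v := by
    have e1 : z0 - a = ((d - h : ℝ) : ℂ) * v + (e : ℂ) * t := by
      rw [hz0, ha]; push_cast; ring
    rw [e1, hcr]
  have hdh : 0 < h * ε := by positivity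
  have hq0 : 0 < e * δ - (d - h) * ε := by
    have h7 : (d - h) * ε = d * ε - h * ε := by ring
    rw [h7]
    linarith
  have hq1 : e * δ - (d - h) * ε < (1 / 8 - h) * ε := by
    have h5 : 0 < d * ε := by positivity
    have h6 : h * ε < 1 / 32 * ε := mul_lt_mul_of_pos_right hh2 hε0
    have h7 : (d - h) * ε = d * ε - h * ε := by ring
    have h8 : (1 / 8 - h) * ε = 1 / 8 * ε - h * ε := by ring
    rw [h7, h8]
    linarith
  have hq2 : (1 / 8 - h) * ε < (1 / 4 - h) * ε := mul_lt_mul_of_pos_right (by linarith) hε0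
  have hns : ∀ s : ℂ, s ≠ 0 → 0 < Complex.normSq s := fun s hs => Complex.normSq_pos.mpr hs
  rcases lt_or_gt_of_ne hκ with hneg | hpos
  · refine ⟨a, c, -r, z0, z1, ⟨neg_ne_zero.mpr hrne, haΩ, hcp _ hnegr, ?_, hzp _ hnegr, ?_,
      hwp _ hnegr, ?_, ?_, ?_, ?_, ?_, ?_⟩⟩
    · rw [sub_neg_eq_add]; exact hcp _ hrn
    · rw [sub_neg_eq_add]; exact hzp _ hrn
    · rw [sub_neg_eq_add]; exact hwp _ hrn
    · rw [div_im', cross_neg, hh_0]
      apply div_pos _ (hns _ (neg_ne_zero.mpr hrne))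
      rw [← mul_neg]
      exact mul_pos (by linarith) (by linarith)
    · rw [div_im', div_im', cross_neg, cross_neg, hh_0, hh_c]
      apply div_lt_div_of_pos_right _ (hns _ (neg_ne_zero.mpr hrne))
      rw [← mul_neg, ← mul_neg]
      exact mul_lt_mul_of_pos_right (by linarith) (by linarith)
    · rw [div_im', div_im', cross_neg, cross_neg, hh_0, hh_1]
      apply div_lt_div_of_pos_right _ (hns _ (neg_ne_zero.mpr hrne))
      rw [← mul_neg, ← mul_neg]
      exact mul_lt_mul_of_pos_right (by linarith) (by linarith)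
    · intro k
      have := hav1 (-k)
      have e1 : z0 + 2 * (k : ℂ) * -r = z0 + 2 * ((-k : ℤ) : ℂ) * r := by push_cast; ring
      rw [e1]; exact this
    · intro k
      have := hav2 (-k)
      have e1 : 2 * a - z0 + 2 * (k : ℂ) * -r = 2 * a - z0 + 2 * ((-k : ℤ) : ℂ) * r := by
        push_cast; ring
      rw [e1]; exact this
  · refine ⟨a, c, r, z0, z1, ⟨hrne, haΩ, hcp _ hrn, ?_, hzp _ hrn, ?_,
      hwp _ hrn, ?_, ?_, ?_, ?_, hav1, hav2⟩⟩
    · rw [sub_eq_add_neg]; exact hcp _ hnegr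
    · rw [sub_eq_add_neg]; exact hzp _ hnegr
    · rw [sub_eq_add_neg]; exact hwp _ hnegr
    · rw [div_im', hh_0]
      apply div_pos _ (hns _ hrne)
      exact mul_pos (by linarith) hpos
    · rw [div_im', div_im', hh_0, hh_c]
      apply div_lt_div_of_pos_right _ (hns _ hrne)
      exact mul_lt_mul_of_pos_right (by linarith) hpos
    · rw [div_im', div_im', hh_0, hh_1]
      apply div_lt_div_of_pos_right _ (hns _ hrne)
      exact mul_lt_mul_of_pos_right (by linarith) hpos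

end Pool.Agent.KS6_40.CR
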