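import Pool.Agent.KS6_40.CR.Branch

set_option autoImplicit false

/-! Closure of root vectors: the functionals `f^(2i)(a)`, `f^(2i)(b) + f^(2i)(d)`, the relation
satisfied by the closure of the root vectors, the determinant. -/

namespace Pool.Agent.KS6_40.CR

open Filter Topology
open Pool.Agent.Results.MP_f3b8e9_an.ConvexClosureFails
open Pool.Agent.Y519.CF

section

variable {Ω : Set ℂ} (hΩ : IsOpen Ω)

/-- the `2 m` functionals: `f ↦ f^(2i)(a)` and `f ↦ f^(2i)(b) + f^(2i)(d)`, `i < m` -/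
noncomputable def phT {a b d : ℂ} (ha : a ∈ Ω) (hb : b ∈ Ω) (hd : d ∈ Ω) (m : ℕ) :
    Fin (2 * m) → (A Ω →L[ℂ] ℂ) :=
  fun k => if (k : ℕ) % 2 = 0 then evD hΩ (2 * ((k : ℕ) / 2)) ⟨a, ha⟩
    else evD hΩ (2 * ((k : ℕ) / 2)) ⟨b, hb⟩ + evD hΩ (2 * ((k : ℕ) / 2)) ⟨d, hd⟩

lemma phT_a {a b d : ℂ} (ha : a ∈ Ω) (hb : b ∈ Ω) (hd : d ∈ Ω) (m i : ℕ) (hi : i < m) :
    phT hΩ ha hb hd m ⟨2 * i, by omega⟩ = evD hΩ (2 * i) ⟨a, ha⟩ := by
  unfold phT
  rw [if_pos (by simp)]
  congr 2
  simp

lemma phT_b {a b d : ℂ} (ha : a ∈ Ω) (hb : b ∈ Ω) (hd : d ∈ Ω) (m i : ℕ) (hi : i < m) :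
    phT hΩ ha hb hd m ⟨2 * i + 1, by omega⟩ =
      evD hΩ (2 * i) ⟨b, hb⟩ + evD hΩ (2 * i) ⟨d, hd⟩ := by
  unfold phT
  have h : (2 * i + 1) / 2 = i := by omega
  rw [if_neg (by simp)]
  simp only [h]

/-- a root vector is the restriction of an entire function, and all functionals kill all
iterates -/
lemma root_struct (hcv : Convex ℝ Ω) (h0 : (0 : ℂ) ∈ Ω) (m : ℕ) (hm : 1 ≤ m)
    (φ : Fin (2 * m) → (A Ω →L[ℂ] ℂ))
    (f : A Ω) (hf : IsRootVector hΩ (2 * m) (fun _ => 0) φ f) :
    IsEntire f ∧ ∀ (k : Fin (2 * m)) (q : ℕ), φ k (((DL hΩ ^ (2 * m)) ^ q) f) = 0 := by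
  obtain ⟨-, lam, M, -, hdom, hker⟩ := hf
  have hker2 : (((DL hΩ ^ (2 * m)) - lam • (1 : Module.End ℂ (A Ω))) ^ M) f = 0 := by
    rw [Module.End.pow_apply]
    have : (fun g => ell hΩ (2 * m) (fun _ => 0) g - lam • g) =
        ⇑((DL hΩ ^ (2 * m)) - lam • (1 : Module.End ℂ (A Ω))) := by
      funext g
      rw [ell_even]
      rfl
    rw [← this]
    exact hker
  constructor
  · set P : Polynomial ℂ := (Polynomial.X ^ (2 * m) - Polynomial.C lam) ^ M with hP
    have hmon : P.Monic := (Polynomial.monic_X_pow_sub_C lam (by omega)).pow M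
    have hPf : (Polynomial.aeval (DL hΩ) P) f = 0 := by
      rw [hP, map_pow, map_sub, map_pow, Polynomial.aeval_X, Polynomial.aeval_C,
        Algebra.algebraMap_eq_smul_one]
      exact hker2
    have hsp := (IsAlgClosed.splits P).eq_prod_roots_of_monic hmon
    rw [hsp] at hPf
    exact entire_prod hΩ hcv h0 P.roots f hPf
  · intro k q
    refine kill_all (DL hΩ ^ (2 * m)) (φ k).toLinearMap f lam M ?_ hker2 q
    intro j hj
    have := hdom j hj k
    rw [ell_even_iter] at this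
    exact this

/-- splitting an even number `2 r` of derivatives -/
lemma D_split (m : ℕ) (f : A Ω) (r : ℕ) :
    (D hΩ)^[2 * (r % m)] (((DL hΩ ^ (2 * m)) ^ (r / m)) f) = (D hΩ)^[2 * r] f := by
  rw [← DL_pow, ← pow_mul, ← Module.End.mul_apply, ← pow_add, DL_pow]
  congr 1
  have e : 2 * (r % m) + 2 * m * (r / m) = 2 * r := by
    have := Nat.mod_add_div r m
    nlinarith
  rw [e]

/-- Every root vector satisfies a four point relation. -/
lemma root_rel (hcv : Convex ℝ Ω) (h0 : (0 : ℂ) ∈ Ω) {a c r : ℂ} (ha : a ∈ Ω)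
    (hb : c + r ∈ Ω) (hd : c - r ∈ Ω) (m : ℕ) (hm : 1 ≤ m)
    (f : A Ω) (hf : IsRootVector hΩ (2 * m) (fun _ => 0) (phT hΩ ha hb hd m) f)
    {w1 w2 w3 w4 y : ℂ} (h1 : w1 ∈ Ω) (h2 : w2 ∈ Ω) (h3 : w3 ∈ Ω) (h4 : w4 ∈ Ω)
    (e1 : w1 = y + 2 * (c - a) + r) (e2 : w2 = y + 2 * (c - a) - r) (e3 : w3 = y + r)
    (e4 : w4 = y - r) :
    f.1 ⟨w1, h1⟩ + f.1 ⟨w2, h2⟩ - f.1 ⟨w3, h3⟩ - f.1 ⟨w4, h4⟩ = 0 := by
  obtain ⟨⟨G, hG, hGe⟩, hall⟩ := root_struct hΩ hcv h0 m hm _ f hf
  have hGi : ∀ (p : ℂ) (hp : p ∈ Ω) (k : ℕ), ((D hΩ)^[k] f).1 ⟨p, hp⟩ = iteratedDeriv k G p := by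
    intro p hp k
    rw [D_iter_apply]
    apply Filter.EventuallyEq.iteratedDeriv_eq
    filter_upwards [hΩ.mem_nhds hp] with w hw
    exact hGe w hw
  have hA : ∀ z, G (2 * a - z) = - G z := by
    apply odd_of_iteratedDeriv hG
    intro q
    have hq := hall ⟨2 * (q % m), by have := Nat.mod_lt q hm; omega⟩ (q / m)
    rw [phT_a hΩ ha hb hd m (q % m) (Nat.mod_lt q hm), evD_apply, D_split, hGi] at hq
    exact hq
  set E : ℂ → ℂ := fun z => G (z + r) + G (z - r) with hE
  have hGp : Differentiable ℂ fun z => G (z + r) := hG.comp (by fun_prop)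
  have hGm : Differentiable ℂ fun z => G (z - r) := hG.comp (by fun_prop)
  have hEd : Differentiable ℂ E := hGp.add hGm
  have hC : ∀ z, E (2 * c - z) = - E z := by
    apply odd_of_iteratedDeriv hEd
    intro q
    have hq := hall ⟨2 * (q % m) + 1, by have := Nat.mod_lt q hm; omega⟩ (q / m)
    rw [phT_b hΩ ha hb hd m (q % m) (Nat.mod_lt q hm), add_apply,
      evD_apply, evD_apply, D_split, hGi, hGi] at hq
    have hadd : iteratedDeriv (2 * q) E c = iteratedDeriv (2 * q) (fun z => G (z + r)) c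
        + iteratedDeriv (2 * q) (fun z => G (z - r)) c :=
      iteratedDeriv_fun_add hGp.contDiff.contDiffAt hGm.contDiff.contDiffAt
    rw [hadd, iteratedDeriv_comp_add_const, iteratedDeriv_comp_sub_const]
    exact hq
  have hrel : E (y + 2 * (c - a)) = E y := by
    have s1 := hC (2 * a - y)
    have s2 : E (2 * a - y) = - E y := by
      rw [hE]
      beta_reduce
      rw [show 2 * a - y + r = 2 * a - (y - r) by ring,
        show 2 * a - y - r = 2 * a - (y + r) by ring, hA, hA]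
      ring
    rw [s2, neg_neg] at s1
    rw [← s1]
    congr 1
    ring
  have v : ∀ (w : ℂ) (hw : w ∈ Ω), f.1 ⟨w, hw⟩ = G w := by
    intro w hw
    rw [← hGe w hw, ext_of_mem _ hw]
  rw [v, v, v, v, e1, e2, e3, e4]
  rw [hE] at hrel
  beta_reduce at hrel
  linear_combination hrel

/-- Every element of the closure of the root vectors satisfies the four point relation. -/
lemma cl_rel (hcv : Convex ℝ Ω) (h0 : (0 : ℂ) ∈ Ω) {a c r : ℂ} (ha : a ∈ Ω)
    (hb : c + r ∈ Ω) (hd : c - r ∈ Ω) (m : ℕ) (hm : 1 ≤ m)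
    (f : A Ω) (hf : f ∈ Cl hΩ (2 * m) (fun _ => 0) (phT hΩ ha hb hd m))
    {w1 w2 w3 w4 y : ℂ} (h1 : w1 ∈ Ω) (h2 : w2 ∈ Ω) (h3 : w3 ∈ Ω) (h4 : w4 ∈ Ω)
    (e1 : w1 = y + 2 * (c - a) + r) (e2 : w2 = y + 2 * (c - a) - r) (e3 : w3 = y + r)
    (e4 : w4 = y - r) :
    f.1 ⟨w1, h1⟩ + f.1 ⟨w2, h2⟩ - f.1 ⟨w3, h3⟩ - f.1 ⟨w4, h4⟩ = 0 := by
  set ψ : A Ω →L[ℂ] ℂ :=
    evalAt ⟨w1, h1⟩ + evalAt ⟨w2, h2⟩ - evalAt ⟨w3, h3⟩ - evalAt ⟨w4, h4⟩ with hψ
  have hcl : IsClosed {f : A Ω | ψ f = 0} := isClosed_eq ψ.continuous continuous_const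
  have hsub : (Submodule.span ℂ
      {f : A Ω | IsRootVector hΩ (2 * m) (fun _ => 0) (phT hΩ ha hb hd m) f} :
      Set (A Ω)) ⊆ {f : A Ω | ψ f = 0} := by
    intro f hf
    induction hf using Submodule.span_induction with
    | mem x hx => exact root_rel hΩ hcv h0 ha hb hd m hm x hx h1 h2 h3 h4 e1 e2 e3 e4
    | zero => change ψ (0 : A Ω) = 0; rw [map_zero]
    | add x y _ _ hx hy =>
      change ψ (x + y) = 0
      have hx' : ψ x = 0 := hx
      have hy' : ψ y = 0 := hy
      rw [map_add, hx', hy', add_zero]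
    | smul k x _ hx =>
      change ψ (k • x) = 0
      have hx' : ψ x = 0 := hx
      rw [map_smul, hx', smul_zero]
  exact closure_minimal hsub hcl hf

/-- membership in `D_∞` from local oddness of `f` at `a` and of `f (z + r) + f (z - r)` at `c` -/
lemma mem_DInfty {a c r : ℂ} (ha : a ∈ Ω)
    (hb : c + r ∈ Ω) (hd : c - r ∈ Ω) (m : ℕ) (F : ℂ → ℂ) (hF : DifferentiableOn ℂ F Ω)
    (ho1 : ∀ᶠ s in 𝓝 a, F (2 * a - s) = - F s)
    (ho2 : ∀ᶠ s in 𝓝 c, F (2 * c - s + r) + F (2 * c - s - r) = - (F (s + r) + F (s - r))) :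
    ofFun F hF ∈ DInfty hΩ (2 * m) (fun _ => 0) (phT hΩ ha hb hd m) := by
  have hval : ∀ (p : ℂ) (hp : p ∈ Ω) (k : ℕ),
      ((D hΩ)^[k] (ofFun F hF)).1 ⟨p, hp⟩ = iteratedDeriv k F p := by
    intro p hp k
    rw [D_iter_apply]
    apply Filter.EventuallyEq.iteratedDeriv_eq
    filter_upwards [hΩ.mem_nhds hp] with w hw
    exact ext_ofFun F hF hw
  have hsm : ∀ (p : ℂ) (_ : p ∈ Ω) (k : ℕ), ContDiffAt ℂ k F p := by
    intro p hp k
    exact ((hF.contDiffOn hΩ).contDiffAt (hΩ.mem_nhds hp))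
  have hA : ∀ k, ((D hΩ)^[2 * k] (ofFun F hF)).1 ⟨a, ha⟩ = 0 := by
    intro k
    rw [hval]
    exact iteratedDeriv_of_odd ho1 k
  have hC : ∀ k, ((D hΩ)^[2 * k] (ofFun F hF)).1 ⟨c + r, hb⟩
      + ((D hΩ)^[2 * k] (ofFun F hF)).1 ⟨c - r, hd⟩ = 0 := by
    intro k
    rw [hval, hval]
    have h1 : iteratedDeriv (2 * k) (fun z => F (z + r) + F (z - r)) c = 0 := by
      apply iteratedDeriv_of_odd
      exact ho2
    have hp : ContDiffAt ℂ (2 * k : ℕ) (fun z => F (z + r)) c := by
      have := hsm (c + r) hb (2 * k)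
      exact this.comp c (by fun_prop)
    have hm' : ContDiffAt ℂ (2 * k : ℕ) (fun z => F (z - r)) c := by
      have := hsm (c - r) hd (2 * k)
      exact this.comp c (by fun_prop)
    rw [iteratedDeriv_fun_add hp hm', iteratedDeriv_comp_add_const,
      iteratedDeriv_comp_sub_const] at h1
    exact h1
  intro q j
  rw [ell_even_iter]
  have e : ∀ i : ℕ, (D hΩ)^[2 * i] (((DL hΩ ^ (2 * m)) ^ q) (ofFun F hF)) =
      (D hΩ)^[2 * (i + m * q)] (ofFun F hF) := by
    intro i
    rw [← DL_pow, ← pow_mul, ← Module.End.mul_apply, ← pow_add, DL_pow]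
    congr 2
    ring
  unfold phT
  split_ifs with h
  · rw [evD_apply, e]; exact hA _
  · rw [add_apply, evD_apply, evD_apply, e]; exact hC _

/-! ### the determinant -/

lemma poly_zeroT {a b d : ℂ} (hab : b + d ≠ 2 * a) (m : ℕ) : ∀ Q : Polynomial ℂ,
    Polynomial.derivative^[2 * m] Q = 0 →
    (∀ i < m, (Polynomial.derivative^[2 * i] Q).eval a = 0 ∧
      (Polynomial.derivative^[2 * i] Q).eval b + (Polynomial.derivative^[2 * i] Q).eval d = 0) →
      Q = 0 := by
  induction m with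
  | zero => intro Q h _; exact h
  | succ m ih =>
    intro Q h1 h2
    have hQ'' : Polynomial.derivative (Polynomial.derivative Q) = 0 := by
      apply ih
      · have : Polynomial.derivative^[2 * (m + 1)] Q =
            Polynomial.derivative^[2 * m] (Polynomial.derivative (Polynomial.derivative Q)) := by
          rw [show 2 * (m + 1) = 2 * m + 1 + 1 by ring, Function.iterate_succ_apply,
            Function.iterate_succ_apply]
        rw [← this]; exact h1
      · intro i hi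
        have := h2 (i + 1) (by omega)
        rw [show 2 * (i + 1) = 2 * i + 1 + 1 by ring, Function.iterate_succ_apply,
            Function.iterate_succ_apply] at this
        exact this
    have h3 := Polynomial.eq_C_of_derivative_eq_zero hQ''
    set δ := (Polynomial.derivative Q).coeff 0 with hd
    have h4 : Polynomial.derivative (Q - Polynomial.C δ * Polynomial.X) = 0 := by
      rw [Polynomial.derivative_sub, Polynomial.derivative_C_mul, Polynomial.derivative_X, mul_one,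
        h3, sub_self]
    have h5 := Polynomial.eq_C_of_derivative_eq_zero h4
    set e := (Q - Polynomial.C δ * Polynomial.X).coeff 0 with he
    have hQ : Q = Polynomial.C δ * Polynomial.X + Polynomial.C e := by rw [← h5]; ring
    obtain ⟨ha, hb⟩ := h2 0 (by omega)
    simp only [mul_zero, Function.iterate_zero, id] at ha hb
    rw [hQ] at ha hb
    simp only [Polynomial.eval_add, Polynomial.eval_mul, Polynomial.eval_C,
      Polynomial.eval_X] at ha hb
    have h6 : δ * (b + d - 2 * a) = 0 := by linear_combination hb - 2 * ha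
    have hd0 : δ = 0 := (mul_eq_zero.mp h6).resolve_right (sub_ne_zero.mpr hab)
    rw [hd0] at ha
    have he0 : e = 0 := by linear_combination ha
    rw [hQ, hd0, he0]
    simp

lemma deltaT (h0 : (0 : ℂ) ∈ Ω) {a b d : ℂ} (ha : a ∈ Ω) (hb : b ∈ Ω) (hd : d ∈ Ω)
    (hab : b + d ≠ 2 * a) (m : ℕ) :
    DeltaNeZero hΩ h0 (2 * m) (fun _ => 0) (phT hΩ ha hb hd m) := by
  set y : Fin (2 * m) → Polynomial ℂ := fun k =>
    Polynomial.C (((k : ℕ).factorial : ℂ)⁻¹) * Polynomial.X ^ (k : ℕ) with hy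
  have hdeg : ∀ k, (y k).natDegree < 2 * m := fun k =>
    (Polynomial.natDegree_C_mul_X_pow_le _ _).trans_lt k.2
  refine ⟨0, fun k => yP (y k), ?_, ?_, ?_⟩
  · intro k
    rw [ell_even, DL_pow, D_iter_yP, Polynomial.iterate_derivative_eq_zero (hdeg k), zero_smul]
    apply A_ext
    intro z hz
    rw [yP_val, Polynomial.eval_zero]
    rfl
  · intro k p
    rw [D_iter_yP, yP_val]
    rw [← Polynomial.coeff_zero_eq_eval_zero, Polynomial.coeff_iterate_derivative, zero_add, hy]
    simp only [Polynomial.coeff_C_mul, Polynomial.coeff_X_pow]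
    by_cases h : k = p
    · subst h
      rw [if_pos rfl, if_pos rfl, mul_one, Nat.descFactorial_self, nsmul_eq_mul]
      exact mul_inv_cancel₀ (by exact_mod_cast (Nat.factorial_ne_zero _))
    · rw [if_neg (fun h' => h (Fin.ext h'.symm)), if_neg h]
      simp
  · intro hdet
    obtain ⟨v, hv, hvM⟩ := Matrix.exists_vecMul_eq_zero_iff.mpr hdet
    apply hv
    set Q : Polynomial ℂ := ∑ k, Polynomial.C (v k) * y k with hQ
    have hsum : ∀ q, (D hΩ)^[q] (yP Q : A Ω) = ∑ k, v k • (D hΩ)^[q] (yP (y k) : A Ω) := by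
      intro q
      have e1 : (yP Q : A Ω) = ∑ k, v k • (yP (y k) : A Ω) := by
        apply A_ext
        intro z hz
        have e2 : (∑ k, v k • (yP (y k) : A Ω) : A Ω).1 ⟨z, hz⟩ =
            evalAt ⟨z, hz⟩ (∑ k, v k • (yP (y k) : A Ω)) := rfl
        rw [e2, map_sum, yP_val, hQ, Polynomial.eval_finsetSum]
        refine Finset.sum_congr rfl fun k _ => ?_
        rw [map_smul, evalAt_apply, yP_val, Polynomial.eval_mul, Polynomial.eval_C, smul_eq_mul]
      rw [e1, ← DL_pow, map_sum]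
      refine Finset.sum_congr rfl fun k _ => ?_
      rw [map_smul, DL_pow]
    have hphi : ∀ j, phT hΩ ha hb hd m j (yP Q) = 0 := by
      intro j
      have h := congrFun hvM j
      have e1 : (yP Q : A Ω) = ∑ k, v k • (yP (y k) : A Ω) := hsum 0
      rw [e1, map_sum]
      simp only [map_smul]
      have : Matrix.vecMul v (Matrix.of fun k j => phT hΩ ha hb hd m j (yP (y k))) j =
        ∑ k, v k • phT hΩ ha hb hd m j (yP (y k)) := rfl
      rw [← this]
      exact h
    have hQ0 : Q = 0 := by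
      apply poly_zeroT hab m
      · apply Polynomial.iterate_derivative_eq_zero
        rcases Nat.eq_zero_or_pos m with h | h
        · subst h
          exfalso
          apply hv
          funext k
          exact absurd k.2 (by omega)
        · have : Q.natDegree ≤ 2 * m - 1 := by
            rw [hQ]
            apply Polynomial.natDegree_sum_le_of_forall_le
            intro k _
            refine (Polynomial.natDegree_C_mul_le _ _).trans ?_
            have := hdeg k
            omega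
          omega
      · intro i hi
        constructor
        · have := hphi ⟨2 * i, by omega⟩
          rw [phT_a hΩ ha hb hd m i hi, evD_apply, D_iter_yP] at this
          exact this
        · have := hphi ⟨2 * i + 1, by omega⟩
          rw [phT_b hΩ ha hb hd m i hi, add_apply, evD_apply, evD_apply,
            D_iter_yP] at this
          exact this
    funext k
    have hc : Q.coeff k = v k * (((k : ℕ).factorial : ℂ)⁻¹) := by
      rw [hQ, Polynomial.finsetSum_coeff, Finset.sum_eq_single k]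
      · rw [Polynomial.coeff_C_mul, hy]
        simp [Polynomial.coeff_X_pow]
      · intro j _ hj
        rw [Polynomial.coeff_C_mul, hy]
        simp only [Polynomial.coeff_C_mul, Polynomial.coeff_X_pow]
        rw [if_neg (fun h => hj (Fin.ext h.symm))]
        simp
      · intro h; exact absurd (Finset.mem_univ _) h
    rw [hQ0, Polynomial.coeff_zero] at hc
    have hne : (((k : ℕ).factorial : ℂ)⁻¹) ≠ 0 :=
      inv_ne_zero (by exact_mod_cast (Nat.factorial_ne_zero _))
    exact ((mul_eq_zero.mp hc.symm).resolve_right hne)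

end

end Pool.Agent.KS6_40.CR
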